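import Pool.Agent.helper38.VA.Spec

/-!
Row `va:CLK` (MP_a2a22c_al): the K-type.
-/

set_option autoImplicit false

namespace Pool.Agent.VA

open Matrix Module Pool.Agent.PR Pool.Agent.H48SL

/-- common denominators of a rational matrix -/
theorem CLK_den {a c : ℕ} (A : Matrix (Fin a) (Fin c) ℚ) :
    ∃ m : ℕ, 0 < m ∧ ∃ Z : Matrix (Fin a) (Fin c) ℤ, cq Z = (m : ℚ) • A := by
  classical
  refine ⟨∏ i, ∏ j, (A i j).den, ?_, ?_⟩
  · exact Finset.prod_pos fun i _ => Finset.prod_pos fun j _ => (A i j).pos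
  · have key : ∀ i j, ∃ z : ℤ, (z : ℚ) = ((∏ i, ∏ j, (A i j).den : ℕ) : ℚ) * A i j := by
      intro i j
      have hd : (A i j).den ∣ ∏ i, ∏ j, (A i j).den :=
        dvd_trans (Finset.dvd_prod_of_mem (fun j => (A i j).den) (Finset.mem_univ j))
          (Finset.dvd_prod_of_mem (fun i => ∏ j, (A i j).den) (Finset.mem_univ i))
      obtain ⟨e, he⟩ := hd
      refine ⟨(e : ℤ) * (A i j).num, ?_⟩
      rw [he]
      have h1 : ((A i j).den : ℚ) * A i j = (A i j).num := by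
        rw [mul_comm]
        exact_mod_cast Rat.mul_den_eq_num (A i j)
      push_cast
      rw [← h1]
      ring
    choose z hz using key
    refine ⟨Matrix.of z, ?_⟩
    ext i j
    simp only [cq, Matrix.map_apply, Matrix.of_apply, Matrix.smul_apply, smul_eq_mul]
    exact hz i j

/-- a `2 x 2` matrix of determinant `0` has rank at most one -/
theorem CLK_rank2 (x : M2) (h : x.det = 0) : x.rank ≤ 1 := by
  obtain ⟨w, hw0, hw⟩ := Matrix.exists_mulVec_eq_zero_iff.2 h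
  have h1 : finrank ℚ (LinearMap.range x.mulVecLin) + finrank ℚ (LinearMap.ker x.mulVecLin) = 2 := by
    have := LinearMap.finrank_range_add_finrank_ker x.mulVecLin
    simpa using this
  have h2 : 0 < finrank ℚ (LinearMap.ker x.mulVecLin) := by
    have hm : w ∈ LinearMap.ker x.mulVecLin := by
      rw [LinearMap.mem_ker, Matrix.mulVecLin_apply]
      exact hw
    have hne : (LinearMap.ker x.mulVecLin) ≠ ⊥ := by
      intro hb
      rw [hb] at hm
      exact hw0 ((Submodule.mem_bot ℚ).1 hm)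
    exact Submodule.one_le_finrank_iff.2 hne
  have h3 : x.rank = finrank ℚ (LinearMap.range x.mulVecLin) := rfl
  omega

/-- **CLK** -/
theorem CLK (hCLA : CLA_stmt) (hCLB : CLB_stmt) : CLK_stmt := by
  classical
  intro H W b hS hr hE
  set E : Submodule ℚ (Fin 4 → ℚ) := WI W ⊤ with hEdef
  have hXE : ∀ X ∈ W, ∀ v, X *ᵥ v ∈ E := fun X hX v =>
    Submodule.subset_span ⟨X, hX, v, Submodule.mem_top, rfl⟩
  have hST : Sta b E := (hCLA 4 H W b hS).1 ⊤ (fun v _ => Submodule.mem_top)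
  have hSB : Sta b (⊥ : Submodule ℚ (Fin 4 → ℚ)) := by
    intro v hv
    rw [Submodule.mem_bot] at hv ⊢
    rw [hv, Matrix.mulVec_zero]
  obtain ⟨X0, hX0W, hX0, hX0E⟩ := hCLB 4 W hS.nil hS.com hS.two E (le_of_eq hE)
    (fun X hX v _ => hXE X hX v)
  have hkill : ∀ X ∈ W, ∀ v ∈ E, X *ᵥ v = 0 := by
    intro X hX v hv
    have := (hCLA 4 H W b hS).2 E ⊥ hST hSB ⟨X0, hX0W, hX0, fun v hv => by
      rw [hX0E v hv]; exact Submodule.zero_mem _⟩ X hX v hv
    exact (Submodule.mem_bot ℚ).1 this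
  -- the map `s`
  have hE2 : finrank ℚ (Fin 2 → ℚ) = finrank ℚ E := by rw [hE]; simp
  let es : (Fin 2 → ℚ) ≃ₗ[ℚ] E := LinearEquiv.ofFinrankEq _ _ hE2
  let s : (Fin 2 → ℚ) →ₗ[ℚ] (Fin 4 → ℚ) := E.subtype ∘ₗ es.toLinearMap
  have hsE : ∀ u, s u ∈ E := fun u => (es u).2
  have hsinj : LinearMap.ker s = ⊥ := by
    rw [LinearMap.ker_eq_bot]
    intro u v huv
    exact es.injective (Subtype.ext huv)
  obtain ⟨s', hs'⟩ := s.exists_leftInverse_of_injective hsinj
  have hss : ∀ u ∈ E, s (s' u) = u := by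
    intro u hu
    have h1 : s (es.symm ⟨u, hu⟩) = u := by
      change ((es (es.symm ⟨u, hu⟩) : E) : Fin 4 → ℚ) = u
      rw [LinearEquiv.apply_symm_apply]
    have h2 : s' (s (es.symm ⟨u, hu⟩)) = es.symm ⟨u, hu⟩ := LinearMap.congr_fun hs' _
    rw [h1] at h2
    rw [h2, h1]
  -- the map `q`
  have hQ2 : finrank ℚ ((Fin 4 → ℚ) ⧸ E) = finrank ℚ (Fin 2 → ℚ) := by
    have h := Submodule.finrank_quotient_add_finrank E
    have h4 : finrank ℚ (Fin 4 → ℚ) = 4 := by simp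
    have h2 : finrank ℚ (Fin 2 → ℚ) = 2 := by simp
    omega
  let eq : ((Fin 4 → ℚ) ⧸ E) ≃ₗ[ℚ] (Fin 2 → ℚ) := LinearEquiv.ofFinrankEq _ _ hQ2
  let q : (Fin 4 → ℚ) →ₗ[ℚ] (Fin 2 → ℚ) := eq.toLinearMap ∘ₗ E.mkQ
  have hq0 : ∀ u, q u = 0 ↔ u ∈ E := by
    intro u
    change eq (E.mkQ u) = 0 ↔ u ∈ E
    rw [LinearEquiv.map_eq_zero_iff, Submodule.mkQ_apply, Submodule.Quotient.mk_eq_zero]
  have hqsurj : LinearMap.range q = ⊤ := by
    rw [LinearMap.range_eq_top]
    exact eq.surjective.comp (Submodule.mkQ_surjective E)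
  obtain ⟨q', hq'⟩ := q.exists_rightInverse_of_surjective hqsurj
  -- integral matrices
  obtain ⟨m, hm, S, hS0⟩ := CLK_den (LinearMap.toMatrix' s)
  obtain ⟨l, hl, R, hR0⟩ := CLK_den (LinearMap.toMatrix' q)
  have hmq : (m : ℚ) ≠ 0 := by exact_mod_cast hm.ne'
  have hlq : (l : ℚ) ≠ 0 := by exact_mod_cast hl.ne'
  set S' : Matrix (Fin 2) (Fin 4) ℚ := (m : ℚ)⁻¹ • LinearMap.toMatrix' s' with hS'def
  set R' : Matrix (Fin 4) (Fin 2) ℚ := (l : ℚ)⁻¹ • LinearMap.toMatrix' q' with hR'def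
  have hSS : S' * cq S = 1 := by
    rw [hS0, hS'def, Matrix.smul_mul, Matrix.mul_smul, smul_smul, inv_mul_cancel₀ hmq, one_smul,
      ← LinearMap.toMatrix'_comp, hs', LinearMap.toMatrix'_id]
  have hRR : cq R * R' = 1 := by
    rw [hR0, hR'def, Matrix.smul_mul, Matrix.mul_smul, smul_smul, mul_inv_cancel₀ hlq, one_smul,
      ← LinearMap.toMatrix'_comp, hq', LinearMap.toMatrix'_id]
  have hSv : ∀ v, cq S *ᵥ v = (m : ℚ) • s v := by
    intro v
    rw [hS0, Matrix.smul_mulVec, LinearMap.toMatrix'_mulVec]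
  have hRv : ∀ v, cq R *ᵥ v = (l : ℚ) • q v := by
    intro v
    rw [hR0, Matrix.smul_mulVec, LinearMap.toMatrix'_mulVec]
  have hS'v : ∀ v, S' *ᵥ v = (m : ℚ)⁻¹ • s' v := by
    intro v
    rw [hS'def, Matrix.smul_mulVec, LinearMap.toMatrix'_mulVec]
  have hSE : ∀ v, cq S *ᵥ v ∈ E := by
    intro v
    rw [hSv]
    exact E.smul_mem _ (hsE v)
  have hSS2 : ∀ u ∈ E, cq S *ᵥ (S' *ᵥ u) = u := by
    intro u hu
    rw [hSv, hS'v, map_smul, smul_smul, mul_inv_cancel₀ hmq, one_smul, hss u hu]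
  have hRE : ∀ u ∈ E, cq R *ᵥ u = 0 := by
    intro u hu
    rw [hRv, (hq0 u).2 hu, smul_zero]
  have hRE2 : ∀ u, cq R *ᵥ u = 0 → u ∈ E := by
    intro u hu
    rw [hRv] at hu
    exact (hq0 u).1 ((smul_eq_zero.1 hu).resolve_left hlq)
  -- the representation of `X`
  have hform : ∀ X ∈ W, X = cq S * (S' * X * R') * cq R := by
    intro X hX
    apply Matrix.ext_of_mulVec_single
    intro j
    set v : Fin 4 → ℚ := Pi.single j 1 with hv
    have h1 : v - R' *ᵥ (cq R *ᵥ v) ∈ E := by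
      apply hRE2
      rw [Matrix.mulVec_sub, Matrix.mulVec_mulVec, hRR, Matrix.one_mulVec, sub_self]
    have h2 : X *ᵥ v = X *ᵥ (R' *ᵥ (cq R *ᵥ v)) := by
      have h3 := hkill X hX _ h1
      rw [Matrix.mulVec_sub] at h3
      exact sub_eq_zero.1 h3
    have h4 : cq S *ᵥ (S' *ᵥ (X *ᵥ (R' *ᵥ (cq R *ᵥ v)))) = X *ᵥ (R' *ᵥ (cq R *ᵥ v)) :=
      hSS2 _ (hXE X hX _)
    calc X *ᵥ v = X *ᵥ (R' *ᵥ (cq R *ᵥ v)) := h2
      _ = cq S *ᵥ (S' *ᵥ (X *ᵥ (R' *ᵥ (cq R *ᵥ v)))) := h4.symm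
      _ = (cq S * (S' * X * R') * cq R) *ᵥ v := by
        simp only [Matrix.mulVec_mulVec, Matrix.mul_assoc]
  refine ⟨R, S, ?_, ⟨R', hRR⟩, ⟨S', hSS⟩, ?_, ?_⟩
  · -- `R * S = 0`
    have h1 : cq (R * S) = 0 := by
      have h2 : cq (R * S) = cq R * cq S := by
        unfold cq
        rw [Matrix.map_mul]
      rw [h2]
      apply Matrix.ext_of_mulVec_single
      intro j
      rw [← Matrix.mulVec_mulVec, hRE _ (hSE _), Matrix.zero_mulVec]
    ext i j
    have h2 := congrFun (congrFun h1 i) j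
    simp only [cq, Matrix.map_apply, Matrix.zero_apply] at h2 ⊢
    exact (Int.castRingHom ℚ).injective_int (by simpa using h2)
  · intro X hX
    exact ⟨_, hform X hX⟩
  · intro x hx hx0 hdet
    have h1 : (cq S * x * cq R).rank ≤ 1 :=
      le_trans (Matrix.rank_mul_le_left _ _) (le_trans (Matrix.rank_mul_le_right _ _)
        (CLK_rank2 x hdet))
    have h2 : (cq S * x * cq R).rank ≠ 0 := by
      intro h0
      have h3 : cq S * x * cq R = 0 := by
        have h4 : LinearMap.range (cq S * x * cq R).mulVecLin = ⊥ :=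
          Submodule.finrank_eq_zero.1 h0
        have h5 : (cq S * x * cq R).mulVecLin = 0 := LinearMap.range_eq_bot.1 h4
        apply Matrix.ext_of_mulVec_single
        intro j
        have h6 := LinearMap.congr_fun h5 (Pi.single j 1)
        rw [Matrix.mulVecLin_apply] at h6
        rw [h6, Matrix.zero_mulVec]
        rfl
      apply hx0
      calc x = (S' * cq S) * x * (cq R * R') := by rw [hSS, hRR, Matrix.one_mul, Matrix.mul_one]
        _ = S' * (cq S * x * cq R) * R' := by simp only [Matrix.mul_assoc]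
        _ = 0 := by rw [h3, Matrix.mul_zero, Matrix.zero_mul]
    exact hr _ hx (by omega)

end Pool.Agent.VA
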